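import Pool.Agent.H326R2.Pi.Stmts

/-!
# Task T4 of the `π` project: uniqueness (`S_uniq`)
-/

open Polynomial

namespace Pool.Agent.H847R2.PiT4

open Pool.Agent.H326R2.Pi

lemma s2_ne : (X ^ 2 - 8 : ℚ[X]) ≠ 0 := by
  intro h
  have h1 := congrArg (fun p : ℚ[X] => p.eval 0) h
  simp at h1

lemma base (Φ : ℚ[X]) (c : ℚ) (h : (X ^ 2 - 8) * derivative Φ + X * Φ = C c) : Φ = 0 ∧ c = 0 := by
  have hΦ : Φ = 0 := by
    by_contra hne
    have h1 := congrArg (fun p : ℚ[X] => p.coeff (Φ.natDegree + 1)) h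
    have e8 : ((8 : ℚ[X])) = C 8 := rfl
    simp only [coeff_add, coeff_X_mul, sub_mul, coeff_sub, e8, coeff_C_mul, coeff_X_pow_mul',
      coeff_derivative, coeff_C_succ] at h1
    have h2 : Φ.coeff (Φ.natDegree + 1 + 1) = 0 := coeff_eq_zero_of_natDegree_lt (by omega)
    have h3 : Φ.coeff Φ.natDegree ≠ 0 := by
      rw [coeff_natDegree]; exact leadingCoeff_ne_zero.mpr hne
    rw [h2] at h1
    by_cases hd : 2 ≤ Φ.natDegree + 1
    · rw [if_pos hd] at h1
      obtain ⟨e, he⟩ : ∃ e, Φ.natDegree = e + 1 := ⟨Φ.natDegree - 1, by omega⟩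
      have e2 : Φ.natDegree + 1 - 2 = e := by omega
      rw [e2, ← he] at h1
      have e3 : ((e : ℚ) + 1 + 1) * Φ.coeff Φ.natDegree = 0 := by linarith
      rcases mul_eq_zero.mp e3 with h4 | h4
      · have : (0 : ℚ) ≤ (e : ℚ) := Nat.cast_nonneg e
        linarith
      · exact h3 h4
    · rw [if_neg hd] at h1
      apply h3
      linarith
  refine ⟨hΦ, ?_⟩
  rw [hΦ] at h
  simp only [derivative_zero, mul_zero, add_zero] at h
  exact C_eq_zero.mp h.symm

theorem uniq : S_uniq := by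
  intro m
  induction m with
  | zero =>
    intro Φ c h
    apply base Φ c
    simp only [LL, Nat.cast_zero, mul_zero, zero_sub, pow_zero, mul_one] at h
    rw [← h]; ring
  | succ m ih =>
    intro Φ c h
    simp only [LL] at h
    have hdvd : (X ^ 2 - 8 : ℚ[X]) ∣ Φ := by
      have h1 : (X ^ 2 - 8 : ℚ[X]) ∣ (X * C (2 * (m : ℚ) + 1)) * Φ := by
        refine ⟨derivative Φ - C c * (X ^ 2 - 8) ^ m, ?_⟩
        have e : (C (2 * (m : ℚ) + 1) : ℚ[X]) = 2 * ((m + 1 : ℕ) : ℚ[X]) - 1 := by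
          simp only [map_add, map_mul, map_natCast, map_one, Nat.cast_add, Nat.cast_one, map_ofNat]
          ring
        rw [e, mul_sub, pow_succ] at *
        linear_combination -h
      have hc : IsCoprime (X ^ 2 - 8 : ℚ[X]) (X * C (2 * (m : ℚ) + 1)) := by
        apply IsCoprime.mul_right
        · refine ⟨C (-(1 / 8)), C (1 / 8) * X, ?_⟩
          have e8 : ((8 : ℚ[X])) = C 8 := rfl
          have e9 : (C (-(1 / 8)) : ℚ[X]) = - C (1 / 8) := by simp
          have e10 : (C (1 / 8) : ℚ[X]) * C 8 = 1 := by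
            rw [← C_mul]; norm_num
          rw [e8, e9]
          linear_combination e10
        · have hm : (0 : ℚ) ≤ (m : ℚ) := Nat.cast_nonneg m
          have hne : (2 * (m : ℚ) + 1) ≠ 0 := by linarith
          refine ⟨0, C (2 * (m : ℚ) + 1)⁻¹, ?_⟩
          rw [zero_mul, zero_add, ← C_mul, inv_mul_cancel₀ hne, C_1]
      exact hc.dvd_of_dvd_mul_left h1
    obtain ⟨Φ1, rfl⟩ := hdvd
    have h2 : (X ^ 2 - 8 : ℚ[X]) * LL m Φ1 = (X ^ 2 - 8 : ℚ[X]) * (C c * (X ^ 2 - 8) ^ m) := by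
      simp only [LL]
      simp only [derivative_mul, derivative_sub, derivative_X_pow, derivative_ofNat, Nat.cast_add, Nat.cast_one,
        sub_zero, Nat.cast_ofNat] at h
      have e2 : (C (2 : ℚ) : ℚ[X]) = 2 := rfl
      simp only [e2] at h
      rw [pow_succ] at h
      linear_combination h
    have h3 := mul_left_cancel₀ s2_ne h2
    obtain ⟨h4, h5⟩ := ih Φ1 c h3
    exact ⟨by rw [h4, mul_zero], h5⟩

end Pool.Agent.H847R2.PiT4
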